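import Pool.Agent.H7.GY.Stmts

/-!
# Row PRG of the board `gy11`: the mean of `1/(B+1)`
-/

set_option autoImplicit false

open Finset

namespace Pool.GY7

open Pool.Agent.H23.KT Pool.Agent.H46.KW Pool.KQ Pool.GT7 Pool.GU7 Pool.GV7

/-- the inequality between the means -/
theorem PRG_amgm {ι : Type} [DecidableEq ι] (s : Finset ι) (x : ι → ℝ) (hx : ∀ i ∈ s, 0 ≤ x i)
    (hs : 0 < s.card) : ∏ i ∈ s, x i ≤ ((∑ i ∈ s, x i) / s.card) ^ s.card := by
  have hc : (s.card : ℝ) ≠ 0 := by positivity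
  have h1 := Real.geom_mean_le_arith_mean_weighted s (fun _ => (s.card : ℝ)⁻¹) x
    (fun _ _ => by positivity) (by rw [Finset.sum_const, nsmul_eq_mul]; exact mul_inv_cancel₀ hc) hx
  have h2 : ∏ i ∈ s, x i = (∏ i ∈ s, x i ^ (s.card : ℝ)⁻¹) ^ s.card := by
    rw [← Finset.prod_pow]
    refine Finset.prod_congr rfl fun i hi => ?_
    rw [Real.rpow_inv_natCast_pow (hx i hi) hs.ne']
  rw [h2]
  refine pow_le_pow_left₀ (Finset.prod_nonneg fun i hi => Real.rpow_nonneg (hx i hi) _) ?_ _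
  refine h1.trans (le_of_eq ?_)
  rw [Finset.sum_div]
  refine Finset.sum_congr rfl fun i _ => ?_
  rw [div_eq_inv_mul]

/-- `(1 + e)^n ≤ 1 + 2^n e` for `0 ≤ e ≤ 1` -/
theorem PRG_bern (n : ℕ) (e : ℝ) (h0 : 0 ≤ e) (h1 : e ≤ 1) : (1 + e) ^ n ≤ 1 + 2 ^ n * e := by
  have h : (1 + e) ^ n ≤ 1 + (2 ^ n - 1) * e := by
    induction n with
    | zero => simp
    | succ n ih =>
      have h2 : (1 : ℝ) ≤ 2 ^ n := one_le_pow₀ (by norm_num)
      calc (1 + e) ^ (n + 1) = (1 + e) ^ n * (1 + e) := pow_succ _ _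
        _ ≤ (1 + (2 ^ n - 1) * e) * (1 + e) := by
          exact mul_le_mul_of_nonneg_right ih (by linarith)
        _ ≤ 1 + (2 ^ (n + 1) - 1) * e := by
          have h3 : (2 ^ n - 1) * e * e ≤ (2 ^ n - 1) * e * 1 :=
            mul_le_mul_of_nonneg_left h1 (mul_nonneg (by linarith) h0)
          rw [pow_succ]
          nlinarith
  nlinarith

/-- the integral -/
theorem PRG_int (n : ℕ) (x : ℝ) (hx : 0 < x) (hx1 : x ≤ 1) :
    ∫ s in (0 : ℝ)..1, (x * s + (1 - x)) ^ n ≤ 1 / ((n + 1) * x) := by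
  have h := intervalIntegral.integral_comp_mul_add (a := (0 : ℝ)) (b := 1)
    (fun t : ℝ => t ^ n) hx.ne' (1 - x)
  rw [h, integral_pow]
  have h1 : 0 ≤ (x * 0 + (1 - x)) ^ (n + 1) := pow_nonneg (by linarith) _
  have h2 : (x * 1 + (1 - x)) ^ (n + 1) = 1 := by
    rw [show x * 1 + (1 - x) = 1 by ring, one_pow]
  rw [h2, smul_eq_mul]
  have h3 : (1 : ℝ) / ((n + 1) * x) = x⁻¹ * (1 / (n + 1)) := by
    field_simp
  rw [h3]
  refine mul_le_mul_of_nonneg_left ?_ (by positivity)
  refine div_le_div_of_nonneg_right (by linarith) (by positivity)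

/-- the number of neighbours of `z` in a transversal -/
theorem PRG_card {V : Type} [DecidableEq V] (G : SimpleGraph V) [DecidableRel G.Adj] {b : ℕ}
    (f : Fin b → V) (hf : Function.Injective f) (z : V) :
    (nb G (univ.image f) z).card = (univ.filter fun i => G.Adj z (f i)).card := by
  classical
  have h : nb G (univ.image f) z = (univ.filter fun i => G.Adj z (f i)).image f := by
    ext y
    rw [mem_nb, mem_image, mem_image]
    constructor
    · rintro ⟨⟨i, _, rfl⟩, hy⟩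
      exact ⟨i, by simp [hy], rfl⟩
    · rintro ⟨i, hi, rfl⟩
      exact ⟨⟨i, mem_univ _, rfl⟩, (mem_filter.1 hi).2⟩
  rw [h, card_image_of_injective _ hf]

/-- the generating function -/
theorem PRG_gen {V : Type} [DecidableEq V] (G : SimpleGraph V) [DecidableRel G.Adj] {b : ℕ}
    (P : Fin b → Finset V) (z : V) (s : ℝ) :
    ∑ f ∈ Fintype.piFinset P, s ^ (univ.filter fun i => G.Adj z (f i)).card =
      ∏ i, (((P i).card : ℝ) - (nb G (P i) z).card * (1 - s)) := by
  classical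
  have h1 : ∀ i, ∑ v ∈ P i, (if G.Adj z v then s else 1) =
      ((P i).card : ℝ) - (nb G (P i) z).card * (1 - s) := by
    intro i
    have h2 : ∀ v ∈ P i, (if G.Adj z v then s else 1) = 1 - (if G.Adj z v then (1 - s) else 0) := by
      intro v _
      split_ifs <;> ring
    rw [Finset.sum_congr rfl h2, Finset.sum_sub_distrib, Finset.sum_const, nsmul_eq_mul, mul_one,
      ← Finset.sum_filter, Finset.sum_const, nsmul_eq_mul]
    congr 3
    unfold nb
    congr 1
    ext v
    simp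
  rw [← Finset.prod_congr rfl fun i _ => h1 i, Finset.prod_univ_sum]
  refine Finset.sum_congr rfl fun f _ => ?_
  rw [Finset.prod_ite, Finset.prod_const, Finset.prod_const_one, mul_one]

/-- the mean of `1/(B+1)` over all transversals as an integral -/
theorem PRG_mean {V : Type} [DecidableEq V] (G : SimpleGraph V) [DecidableRel G.Adj] {b : ℕ}
    (P : Fin b → Finset V) (z : V) :
    ∑ f ∈ Fintype.piFinset P, 1 / (((univ.filter fun i => G.Adj z (f i)).card : ℝ) + 1) =
      ∫ s in (0 : ℝ)..1, ∏ i, (((P i).card : ℝ) - (nb G (P i) z).card * (1 - s)) := by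
  have h : ∀ s : ℝ, ∏ i, (((P i).card : ℝ) - (nb G (P i) z).card * (1 - s)) =
      ∑ f ∈ Fintype.piFinset P, s ^ (univ.filter fun i => G.Adj z (f i)).card :=
    fun s => (PRG_gen G P z s).symm
  simp only [h]
  rw [intervalIntegral.integral_finsetSum]
  · refine Finset.sum_congr rfl fun f _ => ?_
    rw [integral_pow]
    simp
  · intro f _
    exact (continuous_pow _).intervalIntegrable _ _

/-- the final numerical step -/
theorem PRG_num (p : ℕ) (ε Y ζ e A Nz M N : ℝ) (hε : 0 < ε) (hY : 0 < Y) (hζ : ζ ≤ Y / 2)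
    (hζ2 : ζ ≤ ε * Y ^ 2 / 4) (_hζ0 : 0 ≤ ζ) (he : 0 ≤ e) (he1 : e ≤ 1)
    (he2 : 2 ^ (p + 4) * e ≤ ε * Y / 4) (hA : 0 < A) (hNz : Y * A ≤ Nz) (hM : Nz - ζ * A ≤ M)
    (hN : N = (1 + e) * A) :
    0 < M ∧ ((p : ℝ) + 2) * N ^ (p + 4) / (((p : ℝ) + 3) * M) ≤
      A ^ (p + 3) * (((p : ℝ) + 2) * A / (((p : ℝ) + 3) * Nz) + ε) := by
  have hM1 : Y / 2 * A ≤ M := by nlinarith
  have hM0 : 0 < M := lt_of_lt_of_le (by positivity) hM1
  have hNz0 : 0 < Nz := lt_of_lt_of_le (by positivity) hNz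
  refine ⟨hM0, ?_⟩
  have hb := PRG_bern (p + 4) e he he1
  set κ := 2 ^ (p + 4) * e with hκ
  have hκ0 : 0 ≤ κ := by positivity
  have hN' : N ^ (p + 4) ≤ (1 + κ) * A ^ (p + 4) := by
    rw [hN, mul_pow]
    exact mul_le_mul_of_nonneg_right hb (by positivity)
  have q1 : A / M ≤ 2 / Y := by
    rw [div_le_div_iff₀ hM0 hY]
    nlinarith
  have q2 : A / M ≤ A / Nz + ε / 2 := by
    have h1 : A / M - A / Nz = A * (Nz - M) / (M * Nz) := by
      field_simp
    have h2 : A * (Nz - M) / (M * Nz) ≤ ε / 2 := by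
      rw [div_le_iff₀ (by positivity)]
      have h3 : A * (Nz - M) ≤ A * (ζ * A) := mul_le_mul_of_nonneg_left (by linarith) hA.le
      have h4 : (Y / 2 * A) * (Y * A) ≤ M * Nz :=
        mul_le_mul hM1 hNz (by positivity) hM0.le
      have h5 : ε / 2 * ((Y / 2 * A) * (Y * A)) ≤ ε / 2 * (M * Nz) :=
        mul_le_mul_of_nonneg_left h4 (by positivity)
      have h6 : A * (ζ * A) ≤ ε / 2 * ((Y / 2 * A) * (Y * A)) := by
        have : ζ * (A * A) ≤ ε * Y ^ 2 / 4 * (A * A) :=
          mul_le_mul_of_nonneg_right hζ2 (by positivity)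
        nlinarith
      linarith
    linarith
  have q3 : κ * (A / M) ≤ ε / 2 := by
    calc κ * (A / M) ≤ (ε * Y / 4) * (2 / Y) :=
          mul_le_mul he2 q1 (by positivity) (by positivity)
      _ = ε / 2 := by field_simp; ring
  have q4 : (1 + κ) * (A / M) ≤ A / Nz + ε := by nlinarith
  have hr : ((p : ℝ) + 2) / ((p : ℝ) + 3) ≤ 1 := by
    rw [div_le_one (by positivity)]; linarith
  have hr0 : 0 ≤ ((p : ℝ) + 2) / ((p : ℝ) + 3) := by positivity
  calc ((p : ℝ) + 2) * N ^ (p + 4) / (((p : ℝ) + 3) * M)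
      ≤ ((p : ℝ) + 2) * ((1 + κ) * A ^ (p + 4)) / (((p : ℝ) + 3) * M) := by
        refine div_le_div_of_nonneg_right ?_ (by positivity)
        exact mul_le_mul_of_nonneg_left hN' (by positivity)
    _ = A ^ (p + 3) * (((p : ℝ) + 2) / ((p : ℝ) + 3) * ((1 + κ) * (A / M))) := by
        rw [show p + 4 = (p + 3) + 1 from rfl, pow_succ]
        field_simp
    _ ≤ A ^ (p + 3) * (((p : ℝ) + 2) / ((p : ℝ) + 3) * (A / Nz + ε)) := by
        refine mul_le_mul_of_nonneg_left ?_ (by positivity)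
        exact mul_le_mul_of_nonneg_left q4 hr0
    _ ≤ A ^ (p + 3) * (((p : ℝ) + 2) * A / (((p : ℝ) + 3) * Nz) + ε) := by
        refine mul_le_mul_of_nonneg_left ?_ (by positivity)
        have h1 : ((p : ℝ) + 2) / ((p : ℝ) + 3) * (A / Nz + ε) =
            ((p : ℝ) + 2) * A / (((p : ℝ) + 3) * Nz) + ((p : ℝ) + 2) / ((p : ℝ) + 3) * ε := by
          field_simp
        rw [h1]
        have := mul_le_mul_of_nonneg_right hr hε.le
        linarith

theorem PRG_cast (p : ℕ) : ((p + 2 : ℕ) : ℝ) = (p : ℝ) + 2 := by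
  rw [Nat.cast_add]
  rfl

theorem PRG_thm (hTRV : TRVStmt) (hNMS : Pool.KR.NMSStmt) : PRGStmt := by
  classical
  intro p ε y₀ hε hy₀
  set Y : ℝ := y₀ * ((p : ℝ) + 2) with hYdef
  have hY : 0 < Y := by positivity
  set ζ : ℝ := min (Y / 2) (ε * Y ^ 2 / 4) with hζdef
  have hζ0 : 0 < ζ := lt_min (by positivity) (by positivity)
  set e₀ : ℝ := min (1 / 2) (ε * Y / 4 / 2 ^ (p + 4)) with he₀
  have he₀0 : 0 < e₀ := lt_min (by norm_num) (by positivity)
  refine ⟨e₀, he₀0, fun C => ?_⟩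
  obtain ⟨a₁, ha₁⟩ := hNMS p C ζ hζ0
  refine ⟨max a₁ 1, fun a ha V _ G e W P U hS he he' hCB z hz hNz => ?_⟩
  have ha1 : a₁ ≤ a := (le_max_left _ _).trans ha
  have ha0 : 1 ≤ a := (le_max_right _ _).trans ha
  have hA : (0 : ℝ) < a := by exact_mod_cast ha0
  have hehalf : e ≤ 1 / 2 := he'.trans (min_le_left _ _)
  have he2 : 2 ^ (p + 4) * e ≤ ε * Y / 4 := by
    have h1 : e ≤ ε * Y / 4 / 2 ^ (p + 4) := he'.trans (min_le_right _ _)
    rw [le_div_iff₀ (by positivity)] at h1
    linarith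
  obtain ⟨k0, hk0⟩ := ha₁ a ha1 G e W P U hS he hehalf hCB z ((hS.cov z).2 (Or.inl hz))
  obtain ⟨N, hN⟩ : ∃ N : ℝ, N = (1 + e) * a := ⟨_, rfl⟩
  have hN0 : 0 < N := by rw [hN]; positivity
  obtain ⟨n, hn⟩ : ∃ n : Fin (p + 3) → ℝ, n = fun i => ((nb G (P i) z).card : ℝ) := ⟨_, rfl⟩
  have hn0 : ∀ i, 0 ≤ n i := fun i => by rw [hn]; exact Nat.cast_nonneg _
  have hnP : ∀ i, n i ≤ ((P i).card : ℝ) := by
    intro i
    simp only [hn]
    exact_mod_cast card_le_card (filter_subset _ _)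
  have hnN : ∀ i, n i ≤ N := fun i => (hnP i).trans (hN ▸ hS.hi i)
  -- the neighbours of `z` in the union
  have hsum : ((nb G (un P) z).card : ℝ) = ∑ i, n i := by
    have h1 : nb G (un P) z = univ.biUnion (fun i => nb G (P i) z) := by
      ext y
      simp only [mem_nb, un, mem_biUnion, mem_univ, true_and]
      constructor
      · rintro ⟨⟨i, hi⟩, h⟩; exact ⟨i, hi, h⟩
      · rintro ⟨i, hi, h⟩; exact ⟨⟨i, hi⟩, h⟩
    rw [h1, card_biUnion]
    · rw [Nat.cast_sum, hn]
    · intro i _ j _ hij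
      exact (hS.par.dis i j hij).mono (filter_subset _ _) (filter_subset _ _)
  obtain ⟨M, hM⟩ : ∃ M : ℝ, M = ∑ i ∈ univ.erase k0, n i := ⟨_, rfl⟩
  have hMsum : ((nb G (un P) z).card : ℝ) = n k0 + M := by
    rw [hsum, hM, Finset.add_sum_erase _ _ (mem_univ k0)]
  obtain ⟨hM0, hnum⟩ := PRG_num p ε Y ζ e a ((nb G (un P) z).card) M N hε hY (min_le_left _ _)
    (min_le_right _ _) hζ0.le he (by linarith) he2 hA
    (by rw [hYdef]; linarith [hNz]) (by rw [hMsum]; have := hk0; simp only [hn]; linarith) hN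
  refine le_trans ?_ hnum
  -- the sum over all transversals
  rw [(hTRV G P hS.par).2 (fun L => 1 / (((nb G L z).card : ℝ) + 1))]
  have step1 : ∑ f ∈ trv G P, 1 / (((nb G (univ.image f) z).card : ℝ) + 1) ≤
      ∑ f ∈ Fintype.piFinset P, 1 / (((univ.filter fun i => G.Adj z (f i)).card : ℝ) + 1) := by
    have h1 : ∀ f ∈ trv G P, 1 / (((nb G (univ.image f) z).card : ℝ) + 1) =
        1 / (((univ.filter fun i => G.Adj z (f i)).card : ℝ) + 1) := by
      intro f hf
      have h2 := (mem_filter.1 hf).2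
      have hinj : Function.Injective f := by
        intro i j hij
        by_contra hne
        have := h2 i j hne
        rw [hij] at this
        exact G.loopless.irrefl _ this
      rw [PRG_card G f hinj z]
    rw [Finset.sum_congr rfl h1]
    refine Finset.sum_le_sum_of_subset_of_nonneg (filter_subset _ _) fun f _ _ => by positivity
  refine step1.trans ?_
  rw [PRG_mean G P z]
  -- the bound of the integrand
  obtain ⟨x, hx⟩ : ∃ x : ℝ, x = M / (((p : ℝ) + 2) * N) := ⟨_, rfl⟩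
  have hp2 : (0 : ℝ) < (p : ℝ) + 2 := by positivity
  have hpN : 0 < ((p : ℝ) + 2) * N := mul_pos hp2 hN0
  have hx0 : 0 < x := by rw [hx]; exact div_pos hM0 hpN
  have hcard : (univ.erase k0).card = p + 2 := by
    rw [card_erase_of_mem (mem_univ _), card_univ, Fintype.card_fin]
    rfl
  have hx1 : x ≤ 1 := by
    rw [hx, div_le_one hpN, hM]
    calc ∑ i ∈ univ.erase k0, n i ≤ ∑ i ∈ univ.erase k0, N := Finset.sum_le_sum fun i _ => hnN i
      _ = ((p : ℝ) + 2) * N := by rw [Finset.sum_const, hcard, nsmul_eq_mul, PRG_cast]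
  have hpt : ∀ s ∈ Set.Icc (0 : ℝ) 1,
      ∏ i, (((P i).card : ℝ) - (nb G (P i) z).card * (1 - s)) ≤
        N ^ (p + 3) * (x * s + (1 - x)) ^ (p + 2) := by
    intro s hs
    have hs0 : 0 ≤ 1 - s := by linarith [hs.2]
    have f0 : ∀ i, 0 ≤ ((P i).card : ℝ) - (nb G (P i) z).card * (1 - s) := by
      intro i
      have h1 := hnP i
      have h2 := hn0 i
      have h3 : n i * (1 - s) ≤ n i * 1 := mul_le_mul_of_nonneg_left (by linarith [hs.1]) h2
      simp only [hn] at h1 h3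
      linarith
    have f1 : ∀ i, ((P i).card : ℝ) - (nb G (P i) z).card * (1 - s) ≤ N - n i * (1 - s) := by
      intro i
      have := hS.hi i
      simp only [hn]
      linarith
    have f2 : ∀ i, 0 ≤ N - n i * (1 - s) := fun i => (f0 i).trans (f1 i)
    calc ∏ i, (((P i).card : ℝ) - (nb G (P i) z).card * (1 - s))
        ≤ ∏ i, (N - n i * (1 - s)) := Finset.prod_le_prod (fun i _ => f0 i) (fun i _ => f1 i)
      _ = (N - n k0 * (1 - s)) * ∏ i ∈ univ.erase k0, (N - n i * (1 - s)) := by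
          exact (Finset.mul_prod_erase univ (fun i => N - n i * (1 - s)) (mem_univ k0)).symm
      _ ≤ N * (N - M * (1 - s) / ((p : ℝ) + 2)) ^ (p + 2) := by
          refine mul_le_mul ?_ ?_ (Finset.prod_nonneg fun i _ => f2 i) hN0.le
          · have := mul_nonneg (hn0 k0) hs0
            linarith
          · have h := PRG_amgm (univ.erase k0) (fun i => N - n i * (1 - s)) (fun i _ => f2 i)
              (by rw [hcard]; omega)
            rw [hcard] at h
            refine h.trans (le_of_eq ?_)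
            congr 1
            rw [Finset.sum_sub_distrib, Finset.sum_const, hcard, nsmul_eq_mul, ← Finset.sum_mul,
              ← hM, PRG_cast]
            field_simp
      _ = N ^ (p + 3) * (x * s + (1 - x)) ^ (p + 2) := by
          have h1 : N - M * (1 - s) / ((p : ℝ) + 2) = N * (x * s + (1 - x)) := by
            rw [hx]
            field_simp
            ring
          rw [h1, mul_pow, ← mul_assoc, ← pow_succ']
  have hint : ∫ s in (0 : ℝ)..1, ∏ i, (((P i).card : ℝ) - (nb G (P i) z).card * (1 - s)) ≤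
      ∫ s in (0 : ℝ)..1, N ^ (p + 3) * (x * s + (1 - x)) ^ (p + 2) := by
    refine intervalIntegral.integral_mono_on (by norm_num) ?_ ?_ hpt
    · refine Continuous.intervalIntegrable ?_ _ _
      exact continuous_finset_prod _ fun i _ => by fun_prop
    · refine Continuous.intervalIntegrable ?_ _ _
      fun_prop
  refine hint.trans ?_
  rw [intervalIntegral.integral_const_mul]
  calc N ^ (p + 3) * ∫ s in (0 : ℝ)..1, (x * s + (1 - x)) ^ (p + 2)
      ≤ N ^ (p + 3) * (1 / (((p + 2 : ℕ) + 1) * x)) := by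
        refine mul_le_mul_of_nonneg_left (PRG_int (p + 2) x hx0 hx1) (by positivity)
    _ = ((p : ℝ) + 2) * N ^ (p + 4) / (((p : ℝ) + 3) * M) := by
        have hp2 : ((p : ℝ) + 2) ≠ 0 := by positivity
        have hp3 : ((p : ℝ) + 3) ≠ 0 := by positivity
        rw [hx, PRG_cast, show (p : ℝ) + 2 + 1 = p + 3 by ring, pow_succ N (p + 3)]
        field_simp

end Pool.GY7
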